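import Mathlib
import Pool.Agent.J4H26.KT.W5
import Pool.Agent.J4H39.Z3
import Pool.Agent.J4H39.Z8

/-!
# Windows of consecutive integers under the Collatz map: independent, then coalescing random walks

`T` is the shortcut Collatz map on the integers, `θ₀ = log (4/3) / (2 log 2) = 0.2075…`.  Let `0 < θ < 1`.  We choose a
random integer `n` in an interval of `N` integers, in any position, and `k` random integers `n + h 1, …, n + h k` in the
window of length `H = ⌊N ^ θ⌋` after `n`, and follow the `k + 1` trajectories for `t = ⌊τ log₂ N⌋` steps, `0 < τ < 1/θ₀`;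
`log₂ N / θ₀` is the typical lifetime of a trajectory which starts at a number of size `N`.

The theorem: jointly, the numbers of odd terms of the trajectories, divided by `√t`, and the pattern of the mergings are
those of `k + 1` random walks with steps `0`, `1`, started at `0`, which are independent up to the time
`s = ⌊(θ/θ₀) log₂ N⌋` and coalescing afterwards (they move independently until they meet and together afterwards).  So
the Collatz flow on short windows is, in the scaling limit, a flow of Brownian motions which start to coalesce at the time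
`(θ/θ₀) log₂ N`, sharply.  All estimates are uniform in the position of the interval and in the test function.

The case of two points contains the arcsine law for the merging of two integers at distance at most `N ^ θ`, and a lower
bound for the density of the pairs which ever merge (integers which merge reach the same cycle, or neither reaches one).

Authors: helper26, helper39, helper67, helper75, helper79.  The transfer beyond the binary digits is in the files `J4H39`
(helper39), `J4H67/KT`, `J4H75/KT`, `J4H79/KT`, the law for random binary digits in `J4H26/AF`, `J4H26/KT` (helper26).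
-/

set_option autoImplicit false

open Filter Topology

namespace Pool.Agent.Results.MP_d02c56_nt.CoalescingWindows

/-- The shortcut Collatz map on the integers. -/
def T (x : ℤ) : ℤ := if x % 2 = 0 then x / 2 else (3 * x + 1) / 2

/-- The constant `log (4/3) / (2 log 2) = 0.2075…`. -/
noncomputable def θ₀ : ℝ := Real.log (4 / 3) / (2 * Real.log 2)

/-- The number of steps `⌊τ log₂ N⌋`. -/
noncomputable def time (τ : ℝ) (N : ℕ) : ℕ := ⌊τ * Real.logb 2 N⌋₊

/-- The length `⌊N ^ θ⌋` of the windows. -/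
noncomputable def len (θ : ℝ) (N : ℕ) : ℕ := ⌊(N : ℝ) ^ θ⌋₊

/-- The number of odd integers among the first `t` terms of the trajectory of `n`. -/
def odds (t : ℕ) (n : ℤ) : ℕ := ((Finset.range t).filter fun j => T^[j] n % 2 = 1).card

/-- The mean of `F` over the `N * H ^ k` tuples `(n, n + h 1, …, n + h k)` with `x < n ≤ x + N` and `1 ≤ h i ≤ H`. -/
noncomputable def mean {k : ℕ} (N H : ℕ) (x : ℤ) (F : (Fin (k + 1) → ℤ) → ℝ) : ℝ :=
  (∑ n ∈ Finset.Ioc x (x + N), ∑ h : Fin k → Fin H, F (Fin.cons n fun i => n + ((h i : ℕ) + 1))) / (N * H ^ k)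

/-- The possible moves of `k` coalescing walks at the positions `z`: all vectors `p` of zeros and ones such that walks at
the same position move together. -/
def moves {k : ℕ} (z : Fin k → ℤ) : Finset (Fin k → Fin 2) := Finset.univ.filter fun p => ∀ i j, z i = z j → p i = p j

/-- The expected value of `F` at the positions after `s` steps of `k` coalescing random walks started at the positions
`z`.  In a step all the possible moves have the same probability. -/
noncomputable def coalescing {k : ℕ} (F : (Fin k → ℤ) → ℝ) : ℕ → (Fin k → ℤ) → ℝ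
  | 0, z => F z
  | s + 1, z => (∑ p ∈ moves z, coalescing F s (fun i => z i + (p i : ℕ))) / (moves z).card

/-- The expected value of `F` at the positions after `s` steps of `k` independent random walks started at the positions
`z`. -/
noncomputable def independent {k : ℕ} (F : (Fin k → ℤ) → ℝ) : ℕ → (Fin k → ℤ) → ℝ
  | 0, z => F z
  | s + 1, z => (∑ p : Fin k → Fin 2, independent F s (fun i => z i + (p i : ℕ))) / 2 ^ k

/-- The test functions: functions of `k` real numbers `u` and of a relation `p` between the `k` indices, bounded by `1` and,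
for every `p`, Lipschitz in `u` with constant `1` for the maximum norm. -/
def Test {k : ℕ} (f : (Fin k → ℝ) → (Fin k → Fin k → Prop) → ℝ) : Prop :=
  (∀ u p, |f u p| ≤ 1) ∧ ∀ u v p, |f u p - f v p| ≤ ‖u - v‖

open Pool.Agent.J4H26.AF Pool.Agent.J4H26.KT

theorem T_eq : T = Pool.Agent.J4H39.T := rfl

theorem th0_eq : θ₀ = Pool.Agent.J4H39.th0 := by
  unfold θ₀ Pool.Agent.J4H39.th0 Pool.Agent.J4H39.mu2
  rw [Real.log_div (by norm_num) (by norm_num)]

theorem odds_eq (t : ℕ) (n : ℤ) : odds t n = Pool.Agent.J4H39.od t n := by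
  unfold odds
  induction t with
  | zero => simp [Pool.Agent.J4H39.od]
  | succ t ih =>
    rw [Finset.range_add_one, Finset.filter_insert, Pool.Agent.J4H39.od_succ, ← ih, T_eq]
    rcases Pool.Agent.J4H39.pr_cases t n with ⟨h1, h2⟩ | ⟨h1, h2⟩
    · rw [h1, if_neg (by omega), add_zero]
    · rw [h1, if_pos h2, Finset.card_insert_of_notMem (by simp)]

theorem coalescing_eq {k : ℕ} (F : (Fin k → ℤ) → ℝ) (s : ℕ) : ∀ z, coalescing F s z = cw F s z := by
  induction s with
  | zero => intro z; rfl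
  | succ s ih =>
    intro z
    show (∑ p ∈ moves z, coalescing F s (fun i => z i + (p i : ℕ))) / (moves z).card =
      (∑ p ∈ Pool.Agent.J4H26.AF.moves z, cw F s (fun i => z i + (p i : ℕ))) / (Pool.Agent.J4H26.AF.moves z).card
    have e : moves z = Pool.Agent.J4H26.AF.moves z := rfl
    rw [e, Finset.sum_congr rfl (fun p _ => ih _)]

theorem independent_eq {k : ℕ} (F : (Fin k → ℤ) → ℝ) (s : ℕ) : ∀ z, independent F s z = iw F s z := by
  induction s with
  | zero => intro z; rfl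
  | succ s ih =>
    intro z
    show (∑ p : Fin k → Fin 2, independent F s (fun i => z i + (p i : ℕ))) / 2 ^ k =
      (∑ p : Fin k → Fin 2, iw F s (fun i => z i + (p i : ℕ))) / 2 ^ k
    rw [Finset.sum_congr rfl (fun p _ => ih _)]

theorem mean_eq {k : ℕ} (N H : ℕ) (x : ℤ) (F : (Fin (k + 1) → ℤ) → ℝ) : mean N H x F = wm k N H (x + 1) F := by
  unfold mean wm
  have e : (fun n : ℤ => Pool.Agent.J4H39.mnK k (fun _ => n + 1) (fun _ => H) (fun u => F (Fin.cons n u : Fin (k + 1) → ℤ))) =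
      fun n => (∑ h : Fin k → Fin H, F (Fin.cons n (fun i => n + 1 + (h i : ℕ)) : Fin (k + 1) → ℤ)) / (H : ℝ) ^ k := by
    funext n
    exact mnK_sum k (n + 1) H _
  rw [e]
  unfold Pool.Agent.J4H39.mn
  rw [← Finset.sum_div, div_div, mul_comm ((H : ℝ) ^ k)]
  congr 1
  symm
  apply Finset.sum_bij (fun (v : ℕ) _ => x + 1 + (v : ℤ))
  · intro v hv
    rw [Finset.mem_range] at hv
    rw [Finset.mem_Ioc]
    constructor <;> omega
  · intro v _ v' _ h
    omega
  · intro m hm
    rw [Finset.mem_Ioc] at hm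
    exact ⟨(m - x - 1).toNat, by rw [Finset.mem_range]; omega, by omega⟩
  · intro v _
    apply Finset.sum_congr rfl
    intro h _
    congr 2
    funext i
    ring

theorem after (k : ℕ) {θ τ : ℝ} (hθ : 0 < θ) (hθ1 : θ < 1) (hτθ : θ < τ * θ₀) (hτ1 : τ * θ₀ < 1) {ε : ℝ} (hε : 0 < ε) :
    ∃ N₀ : ℕ, ∀ N ≥ N₀, ∀ (x : ℤ) (f : (Fin (k + 1) → ℝ) → (Fin (k + 1) → Fin (k + 1) → Prop) → ℝ), Test f →
      |mean N (len θ N) x (fun u => f (fun i => odds (time τ N) (u i) / √ (time τ N)) (fun i j => T^[time τ N] (u i) = T^[time τ N] (u j))) -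
        independent (coalescing (fun z => f (fun i => z i / √ (time τ N)) (fun i j => z i = z j))
          (time τ N - min (time τ N) (time (θ / θ₀) N))) (min (time τ N) (time (θ / θ₀) N)) (fun _ => 0)| ≤ ε := by
  rw [th0_eq] at hτθ hτ1
  rw [th0_eq]
  obtain ⟨N₀, hN₀⟩ := eventually_atTop.1 (window_law Pool.Agent.J4H39.t_CONT Pool.Agent.J4H39.t_UNEQ k hθ hθ1 hτθ hτ1 hε)
  refine ⟨N₀, fun N hN x f hf => ?_⟩
  obtain ⟨h1, h2⟩ := hN₀ N hN
  have h3 := h2 (x + 1) f hf
  have e1 : min (time τ N) (time (θ / Pool.Agent.J4H39.th0) N) = Pool.Agent.J4H39.tN (θ / Pool.Agent.J4H39.th0) N := min_eq_right h1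
  have e2 : (fun z : Fin (k + 1) → ℤ => coalescing (fun z : Fin (k + 1) → ℤ => f (fun i => (z i : ℝ) / √ (time τ N : ℝ)) (fun i j => z i = z j))
      (time τ N - Pool.Agent.J4H39.tN (θ / Pool.Agent.J4H39.th0) N) z) =
      cw (fW f (time τ N : ℕ)) (time τ N - Pool.Agent.J4H39.tN (θ / Pool.Agent.J4H39.th0) N) := by
    funext z
    exact coalescing_eq _ _ z
  rw [e1, independent_eq, mean_eq]
  have e3 : (fun u : Fin (k + 1) → ℤ => f (fun i => (odds (time τ N) (u i) : ℝ) / √ (time τ N : ℝ))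
      (fun i j => T^[time τ N] (u i) = T^[time τ N] (u j))) = obT f (Pool.Agent.J4H39.tN τ N) := by
    funext u
    simp only [odds_eq]
    rfl
  rw [e3]
  change |wm k N (Pool.Agent.J4H39.HN θ N) (x + 1) (obT f (Pool.Agent.J4H39.tN τ N)) -
    iw (fun z : Fin (k + 1) → ℤ => coalescing (fun z : Fin (k + 1) → ℤ => f (fun i => (z i : ℝ) / √ (time τ N : ℝ)) (fun i j => z i = z j))
      (time τ N - Pool.Agent.J4H39.tN (θ / Pool.Agent.J4H39.th0) N) z) (Pool.Agent.J4H39.tN (θ / Pool.Agent.J4H39.th0) N) (fun _ => 0)| ≤ ε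
  rw [e2]
  exact h3


theorem early (k : ℕ) {θ τ : ℝ} (hθ : 0 < θ) (hθ1 : θ < 1) (hτ : 0 < τ) (hτθ : τ * θ₀ < θ) {ε : ℝ} (hε : 0 < ε) :
    ∃ N₀ : ℕ, ∀ N ≥ N₀, ∀ (x : ℤ) (f : (Fin (k + 1) → ℝ) → (Fin (k + 1) → Fin (k + 1) → Prop) → ℝ), Test f →
      |mean N (len θ N) x (fun u => f (fun i => odds (time τ N) (u i) / √ (time τ N)) (fun i j => T^[time τ N] (u i) = T^[time τ N] (u j))) -
        independent (coalescing (fun z => f (fun i => z i / √ (time τ N)) (fun i j => z i = z j))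
          (time τ N - min (time τ N) (time (θ / θ₀) N))) (min (time τ N) (time (θ / θ₀) N)) (fun _ => 0)| ≤ ε := by
  rw [th0_eq] at hτθ
  rw [th0_eq]
  have hth := Pool.Agent.J4H39.th0_pos
  obtain ⟨N₀, hN₀⟩ := eventually_atTop.1 ((Pool.Agent.J4H39.before k hθ hθ1 hτ hτθ hε).and (eventually_ge_atTop 1))
  refine ⟨N₀, fun N hN x f hf => ?_⟩
  obtain ⟨h2, hN1⟩ := hN₀ N hN
  have h3 := h2 (x + 1) f hf
  have h1 : time τ N ≤ time (θ / Pool.Agent.J4H39.th0) N := by
    unfold time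
    apply Nat.floor_le_floor
    apply mul_le_mul_of_nonneg_right _ (Real.logb_nonneg (by norm_num) (by exact_mod_cast hN1))
    rw [le_div_iff₀ hth]
    exact hτθ.le
  have e1 : min (time τ N) (time (θ / Pool.Agent.J4H39.th0) N) = time τ N := min_eq_left h1
  rw [e1, Nat.sub_self, independent_eq, mean_eq]
  have e3 : (fun u : Fin (k + 1) → ℤ => f (fun i => (odds (time τ N) (u i) : ℝ) / √ (time τ N : ℝ))
      (fun i j => T^[time τ N] (u i) = T^[time τ N] (u j))) = obT f (Pool.Agent.J4H39.tN τ N) := by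
    funext u
    simp only [odds_eq]
    rfl
  rw [e3]
  exact h3

open Classical in
/-- The indicator of a proposition. -/
noncomputable def ind (P : Prop) : ℝ := if P then 1 else 0

theorem ind_id1 (P : Prop) : ind P = Pool.Agent.J4H39.id1 P := rfl

theorem ind_mono {P Q : Prop} (h : P → Q) : ind P ≤ ind Q := by
  unfold ind
  split_ifs with h1 h2 h2
  · exact le_rfl
  · exact absurd (h h1) h2
  · exact zero_le_one
  · exact le_rfl

theorem ind_nonneg (P : Prop) : 0 ≤ ind P := by unfold ind; split_ifs <;> norm_num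

theorem mean_mono {k N H : ℕ} {x : ℤ} {F G : (Fin (k + 1) → ℤ) → ℝ} (h : ∀ u, F u ≤ G u) : mean N H x F ≤ mean N H x G := by
  unfold mean
  apply div_le_div_of_nonneg_right _ (by positivity)
  exact Finset.sum_le_sum fun n _ => Finset.sum_le_sum fun h' _ => h _

theorem mean_nonneg {k N H : ℕ} {x : ℤ} {F : (Fin (k + 1) → ℤ) → ℝ} (h : ∀ u, 0 ≤ F u) : 0 ≤ mean N H x F := by
  unfold mean
  exact div_nonneg (Finset.sum_nonneg fun n _ => Finset.sum_nonneg fun h' _ => h _) (by positivity)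

/-- the proportion of merged pairs -/
noncomputable def merged (t : ℕ) (x : ℤ) (N H : ℕ) : ℝ := mean N H x (fun u : Fin 2 → ℤ => ind (T^[t] (u 0) = T^[t] (u 1)))

/-- the proportion of pairs which merge at some time -/
noncomputable def coalescent (x : ℤ) (N H : ℕ) : ℝ := mean N H x (fun u : Fin 2 → ℤ => ind (∃ t, T^[t] (u 0) = T^[t] (u 1)))

theorem merged_mono {t t' : ℕ} (h : t ≤ t') (x : ℤ) (N H : ℕ) : merged t x N H ≤ merged t' x N H := by
  apply mean_mono
  intro u
  apply ind_mono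
  intro hu
  obtain ⟨d, rfl⟩ := Nat.exists_eq_add_of_le h
  rw [add_comm, Function.iterate_add_apply, Function.iterate_add_apply, hu]

theorem merged_le (t : ℕ) (x : ℤ) (N H : ℕ) : merged t x N H ≤ coalescent x N H :=
  mean_mono fun u => ind_mono fun hu => ⟨t, hu⟩

theorem merged_nonneg (t : ℕ) (x : ℤ) (N H : ℕ) : 0 ≤ merged t x N H := mean_nonneg fun u => ind_nonneg _

theorem merged_eq (t : ℕ) (x : ℤ) (N H : ℕ) : merged t x N H =
    (∑ i ∈ Finset.range N, ∑ h ∈ Finset.Icc 1 H, Pool.Agent.J4H39.id1 (Pool.Agent.J4H39.T^[t] (x + 1 + (i : ℕ)) =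
      Pool.Agent.J4H39.T^[t] (x + 1 + (i : ℕ) + (h : ℕ)))) / (N * H) := by
  have e1 := mnK_sum 1
  unfold merged
  rw [mean_eq]
  unfold wm Pool.Agent.J4H39.mn
  have e2 : ∀ n : ℤ, Pool.Agent.J4H39.mnK 1 (fun _ => n + 1) (fun _ => H)
      (fun u => (fun u : Fin 2 → ℤ => ind (T^[t] (u 0) = T^[t] (u 1))) (Fin.cons n u)) =
      (∑ h ∈ Finset.Icc 1 H, Pool.Agent.J4H39.id1 (Pool.Agent.J4H39.T^[t] n = Pool.Agent.J4H39.T^[t] (n + (h : ℕ)))) / H := by
    intro n
    rw [e1 (n + 1) H, pow_one]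
    congr 1
    rw [← (Equiv.funUnique (Fin 1) (Fin H)).symm.sum_comp]
    have e3 : Finset.Icc 1 H = (Finset.range H).image (fun q => q + 1) := by
      ext a
      simp only [Finset.mem_Icc, Finset.mem_image, Finset.mem_range]
      constructor
      · rintro ⟨h1, h2⟩; exact ⟨a - 1, by omega, by omega⟩
      · rintro ⟨q, h1, h2⟩; omega
    rw [e3, Finset.sum_image (fun a _ b _ h => by simpa using h), Finset.sum_range]
    apply Finset.sum_congr rfl
    intro q _
    show ind (T^[t] n = T^[t] (n + 1 + ((q : ℕ) : ℤ))) = _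
    rw [ind_id1, T_eq]
    congr 3
    push_cast
    ring
  simp only [e2]
  rw [← Finset.sum_div, div_div, mul_comm (H : ℝ)]

open Pool.Agent.J4H39 in
theorem law {τ θ : ℝ} (hθ : 0 < θ) (hθ1 : θ < 1) (hτθ : θ < τ * θ₀) (hτ1 : τ * θ₀ < 1) {ε : ℝ} (hε : 0 < ε) :
    ∃ N₀ : ℕ, ∀ N ≥ N₀, ∀ x : ℤ,
      |merged (time τ N) x N (len θ N) - (1 - 2 / Real.pi * Real.arcsin √ (θ / (τ * θ₀)))| ≤ ε := by
  rw [th0_eq] at hτθ hτ1
  rw [th0_eq]
  obtain ⟨N₀, hN₀⟩ := eventually_atTop.1 ((full_law hθ hθ1 hτθ hτ1 hε).and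
    (((HN_tendsto hθ).eventually_ge_atTop 1).and (eventually_ge_atTop 1)))
  refine ⟨N₀, fun N hN x => ?_⟩
  obtain ⟨h1, h3, h4⟩ := hN₀ N hN
  have hN0 : (0 : ℝ) < N := by exact_mod_cast h4
  have hH0 : (0 : ℝ) < HN θ N := by exact_mod_cast h3
  have hNH : (0 : ℝ) < N * HN θ N := by positivity
  have h2 := h1 (x + 1)
  have e2 : ∑ i ∈ Finset.range N, ∑ h ∈ Finset.Icc 1 (HN θ N),
        id1 (Pool.Agent.J4H39.T^[tN τ N] (x + 1 + (i : ℕ)) ≠ Pool.Agent.J4H39.T^[tN τ N] (x + 1 + (i : ℕ) + (h : ℕ))) =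
      N * HN θ N - ∑ i ∈ Finset.range N, ∑ h ∈ Finset.Icc 1 (HN θ N),
        id1 (Pool.Agent.J4H39.T^[tN τ N] (x + 1 + (i : ℕ)) = Pool.Agent.J4H39.T^[tN τ N] (x + 1 + (i : ℕ) + (h : ℕ))) := by
    have e3 : ∀ P : Prop, id1 (¬ P) = 1 - id1 P := by
      intro P
      by_cases h : P
      · rw [id1_pos h, id1_neg (not_not.2 h)]; ring
      · rw [id1_neg h, id1_pos h]; ring
    have e4 : ∀ i h : ℕ, id1 (Pool.Agent.J4H39.T^[tN τ N] (x + 1 + (i : ℕ)) ≠ Pool.Agent.J4H39.T^[tN τ N] (x + 1 + (i : ℕ) + (h : ℕ))) =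
        1 - id1 (Pool.Agent.J4H39.T^[tN τ N] (x + 1 + (i : ℕ)) = Pool.Agent.J4H39.T^[tN τ N] (x + 1 + (i : ℕ) + (h : ℕ))) :=
      fun i h => e3 _
    simp only [e4, Finset.sum_sub_distrib, Finset.sum_const, Finset.card_range, Nat.card_Icc, nsmul_eq_mul, mul_one, Nat.add_sub_cancel]
  rw [e2] at h2
  rw [merged_eq]
  change |(∑ i ∈ Finset.range N, ∑ h ∈ Finset.Icc 1 (HN θ N),
        id1 (Pool.Agent.J4H39.T^[tN τ N] (x + 1 + (i : ℕ)) = Pool.Agent.J4H39.T^[tN τ N] (x + 1 + (i : ℕ) + (h : ℕ)))) / (N * HN θ N) - _| ≤ ε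
  set S : ℝ := ∑ i ∈ Finset.range N, ∑ h ∈ Finset.Icc 1 (HN θ N),
        id1 (Pool.Agent.J4H39.T^[tN τ N] (x + 1 + (i : ℕ)) = Pool.Agent.J4H39.T^[tN τ N] (x + 1 + (i : ℕ) + (h : ℕ))) with hS
  have e5 : S / (N * HN θ N) - (1 - 2 / Real.pi * Real.arcsin √ (θ / (τ * th0))) =
      -(((N * HN θ N - S) - N * HN θ N * (2 / Real.pi * Real.arcsin √ (θ / (τ * th0)))) / (N * HN θ N)) := by
    field_simp
    ring
  rw [e5, abs_neg, abs_div, abs_of_pos hNH, div_le_iff₀ hNH]
  exact h2

theorem near {a : ℝ} (ha : 0 < a) (ha1 : a < 1) {ε : ℝ} (hε : 0 < ε) : ∃ q : ℝ, a < q ∧ q < 1 ∧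
    1 - 2 / Real.pi * Real.arcsin √ (a / q) ≤ ε := by
  have hcont : ContinuousAt (fun q : ℝ => 1 - 2 / Real.pi * Real.arcsin √ (a / q)) a := by
    have h1 : ContinuousAt (fun q : ℝ => a / q) a := continuousAt_const.div continuousAt_id ha.ne'
    have h2 : Continuous (fun r : ℝ => 1 - 2 / Real.pi * Real.arcsin √ r) :=
      continuous_const.sub (continuous_const.mul (Real.continuous_arcsin.comp Real.continuous_sqrt))
    exact h2.continuousAt.comp h1
  have hval : 1 - 2 / Real.pi * Real.arcsin √ (a / a) = 0 := by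
    rw [div_self ha.ne', Real.sqrt_one, Real.arcsin_one]
    have := Real.pi_pos
    field_simp
    ring
  have h3 := hcont.eventually_lt_const (show (fun q : ℝ => 1 - 2 / Real.pi * Real.arcsin √ (a / q)) a < ε by
    simp only; rw [hval]; exact hε)
  have h4 : ∀ᶠ q in 𝓝[>] a, 1 - 2 / Real.pi * Real.arcsin √ (a / q) < ε := nhdsWithin_le_nhds h3
  have h5 : ∀ᶠ q in 𝓝[>] a, q < 1 := nhdsWithin_le_nhds (eventually_lt_nhds ha1)
  have h6 : ∀ᶠ q in 𝓝[>] a, a < q := eventually_mem_nhdsWithin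
  obtain ⟨q, hq1, hq2, hq3⟩ := (h4.and (h5.and h6)).exists
  exact ⟨q, hq3, hq2, hq1.le⟩

theorem time_mono {τ τ' : ℝ} (h : τ ≤ τ') {N : ℕ} (hN : 1 ≤ N) : time τ N ≤ time τ' N :=
  Pool.Agent.J4H39.tN_mono h hN

/-- **Windows of consecutive integers under the Collatz map are independent, then coalescing random walks.**

Let `0 < θ < 1`.

* For all `k`, `0 < τ < 1/θ₀` with `τ θ₀ ≠ θ`, and `ε > 0`, for all large `N` and all `x`: let `t = ⌊τ log₂ N⌋`,
  `H = ⌊N ^ θ⌋` and `s = min t ⌊(θ/θ₀) log₂ N⌋`.  For every test function `f` the mean of `f`, over all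
  `u = (n, n + h 1, …, n + h k)` with `x < n ≤ x + N` and `1 ≤ h i ≤ H`, at the numbers of odd terms
  `odds t (u i) / √t` and the relation `T^t (u i) = T^t (u j)` differs by at most `ε` from the expected value of `f` at the
  rescaled positions and the relation (the walks `i` and `j` are at the same position) at time `t` of `k + 1` random walks
  started at `0`, independent for `s` steps and coalescing for `t - s` steps.
* For `0 < τ < 1/θ₀` the proportion of the pairs `(n, n + h)`, `x < n ≤ x + N`, `1 ≤ h ≤ H`, with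
  `T^t n = T^t (n + h)` is within `ε` of `1 - (2/π) arcsin √(min 1 (θ/(τ θ₀)))`, for all large `N` and all `x`.
* The proportion of these pairs whose trajectories ever merge is at least `1 - (2/π) arcsin √θ - ε`, for all large `N`
  and all `x`. -/
theorem result (θ : ℝ) (hθ : 0 < θ) (hθ1 : θ < 1) (ε : ℝ) (hε : 0 < ε) :
    (∀ (k : ℕ) (τ : ℝ), 0 < τ → τ < 1 / θ₀ → τ * θ₀ ≠ θ → ∃ N₀ : ℕ, ∀ N ≥ N₀, ∀ (x : ℤ)
      (f : (Fin (k + 1) → ℝ) → (Fin (k + 1) → Fin (k + 1) → Prop) → ℝ), Test f →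
      |mean N (len θ N) x (fun u => f (fun i => odds (time τ N) (u i) / √ (time τ N)) (fun i j => T^[time τ N] (u i) = T^[time τ N] (u j))) -
        independent (coalescing (fun z => f (fun i => z i / √ (time τ N)) (fun i j => z i = z j))
          (time τ N - min (time τ N) (time (θ / θ₀) N))) (min (time τ N) (time (θ / θ₀) N)) (fun _ => 0)| ≤ ε) ∧
    (∀ τ : ℝ, 0 < τ → τ < 1 / θ₀ → ∃ N₀ : ℕ, ∀ N ≥ N₀, ∀ x : ℤ,
      |mean N (len θ N) x (fun u : Fin 2 → ℤ => ind (T^[time τ N] (u 0) = T^[time τ N] (u 1))) -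
        (1 - 2 / Real.pi * Real.arcsin √ (min 1 (θ / (τ * θ₀))))| ≤ ε) ∧
    ∃ N₀ : ℕ, ∀ N ≥ N₀, ∀ x : ℤ,
      1 - 2 / Real.pi * Real.arcsin √ θ - ε ≤ mean N (len θ N) x (fun u : Fin 2 → ℤ => ind (∃ t, T^[t] (u 0) = T^[t] (u 1))) := by
  have hθ₀ : 0 < θ₀ := by rw [th0_eq]; exact Pool.Agent.J4H39.th0_pos
  refine ⟨?_, ?_, ?_⟩
  · intro k τ hτ hτ1 hne
    have hτ1' : τ * θ₀ < 1 := by rwa [lt_div_iff₀ hθ₀] at hτ1
    rcases lt_or_gt_of_ne hne with h | h
    · exact early k hθ hθ1 hτ h hε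
    · exact after k hθ hθ1 h hτ1' hε
  · intro τ hτ hτ1
    change ∃ N₀ : ℕ, ∀ N ≥ N₀, ∀ x : ℤ, |merged (time τ N) x N (len θ N) - (1 - 2 / Real.pi * Real.arcsin √ (min 1 (θ / (τ * θ₀))))| ≤ ε
    have hτ1' : τ * θ₀ < 1 := by rwa [lt_div_iff₀ hθ₀] at hτ1
    have h0 : 0 < τ * θ₀ := mul_pos hτ hθ₀
    rcases lt_or_ge θ (τ * θ₀) with h | h
    · have h1 : θ / (τ * θ₀) ≤ 1 := by rw [div_le_one h0]; exact h.le
      rw [min_eq_right h1]
      exact law hθ hθ1 h hτ1' hε
    · have h1 : 1 ≤ θ / (τ * θ₀) := by rw [one_le_div h0]; exact h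
      rw [min_eq_left h1, Real.sqrt_one, Real.arcsin_one]
      have hpi := Real.pi_pos
      have h2 : (1 : ℝ) - 2 / Real.pi * (Real.pi / 2) = 0 := by field_simp; ring
      rw [h2]
      obtain ⟨q, hq1, hq2, hq3⟩ := near hθ hθ1 (show 0 < ε / 2 by linarith)
      have e1 : q / θ₀ * θ₀ = q := by field_simp
      obtain ⟨N₀, hN₀⟩ := law (τ := q / θ₀) hθ hθ1 (by rw [e1]; exact hq1) (by rw [e1]; exact hq2) (show 0 < ε / 2 by linarith)
      refine ⟨max N₀ 1, fun N hN x => ?_⟩
      rw [ge_iff_le, max_le_iff] at hN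
      have h3 := hN₀ N hN.1 x
      rw [e1, abs_le] at h3
      have h4 := merged_mono (time_mono (τ := τ) (τ' := q / θ₀) (by rw [le_div_iff₀ hθ₀]; linarith) hN.2) x N (len θ N)
      rw [sub_zero, abs_of_nonneg (merged_nonneg _ _ _ _)]
      linarith [h3.2]
  · change ∃ N₀ : ℕ, ∀ N ≥ N₀, ∀ x : ℤ, 1 - 2 / Real.pi * Real.arcsin √ θ - ε ≤ coalescent x N (len θ N)
    -- choose `τ` close to `1 / θ₀`
    have hcont : Continuous (fun q : ℝ => 1 - 2 / Real.pi * Real.arcsin √ q) :=
      continuous_const.sub (continuous_const.mul (Real.continuous_arcsin.comp Real.continuous_sqrt))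
    have h1 : ContinuousAt (fun q : ℝ => 1 - 2 / Real.pi * Real.arcsin √ (θ / q)) 1 := by
      have h2 : ContinuousAt (fun q : ℝ => θ / q) 1 := continuousAt_const.div continuousAt_id one_ne_zero
      exact hcont.continuousAt.comp h2
    have h3 := h1.eventually_const_lt (show 1 - 2 / Real.pi * Real.arcsin √ θ - ε / 2 <
      (fun q : ℝ => 1 - 2 / Real.pi * Real.arcsin √ (θ / q)) 1 by simp only [div_one]; linarith)
    have h4 : ∀ᶠ q in nhdsWithin (1 : ℝ) (Set.Iio 1), 1 - 2 / Real.pi * Real.arcsin √ θ - ε / 2 <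
        1 - 2 / Real.pi * Real.arcsin √ (θ / q) := nhdsWithin_le_nhds h3
    have h5 : ∀ᶠ q in nhdsWithin (1 : ℝ) (Set.Iio 1), θ < q := nhdsWithin_le_nhds (eventually_gt_nhds hθ1)
    have h6 : ∀ᶠ q in nhdsWithin (1 : ℝ) (Set.Iio 1), q < 1 := eventually_mem_nhdsWithin
    obtain ⟨q, hq1, hq2, hq3⟩ := (h4.and (h5.and h6)).exists
    have e1 : q / θ₀ * θ₀ = q := by field_simp
    obtain ⟨N₀, hN₀⟩ := law (τ := q / θ₀) hθ hθ1 (by rw [e1]; exact hq2) (by rw [e1]; exact hq3) (show 0 < ε / 2 by linarith)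
    refine ⟨N₀, fun N hN x => ?_⟩
    have h7 := hN₀ N hN x
    rw [e1, abs_le] at h7
    have h8 := merged_le (time (q / θ₀) N) x N (len θ N)
    linarith [h7.1]

end Pool.Agent.Results.MP_d02c56_nt.CoalescingWindows
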