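import Mathlib
import Pool.Agent.J4H26.KP.Main
import Pool.Agent.H499R2.NDClass2
import Pool.Agent.J4H26.SI.Si2

/-!
# Integers with a given fate under the Collatz map in almost all short intervals

`T` is the shortcut Collatz map on the integers.  Call a set `R` of integers invariant (for the sign `s = 1` or `s = -1`)
if an integer `n` of sign `s` is in `R` if and only if `T n` is.  The set of the integers whose trajectory reaches a given
cycle is invariant, and so is the exceptional set of the problem: the integers whose trajectory does not reach any of the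
five known cycles.  Every invariant set has a natural density among the integers of sign `s`, and the density of the
integers which reach a given cycle is positive (starting files).

We show that every invariant set `R` of positive density has many elements in almost all intervals of length
`H ≥ exp (B √ log N)`: at least `H exp (-B √ log N)`, so at least `H ^ (1 - κ)` if `H ≥ exp ((B / κ) √ log N)`.  For every integer `a ≠ 0` the integers whose trajectory meets that of `a`
are such a set.  So almost all intervals of length `exp (B √ log N)` contain integers which reach `1`, and, on the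
negative side, integers which reach `-1`, integers which reach `-5` and integers which reach `-17`; and if the answer to
the question of the problem is negative, then almost all of these intervals (on the positive or on the negative side)
contain many exceptional integers.  For intervals of length `N ^ o(1)` the proportion of `R` in the interval is near `0` or near `1` for almost all
intervals (condensation); the result shows that nevertheless each of the fates occurs, as soon as `log H` is large
compared with `√ log N`.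

The proof.  Let `m = ⌈C' √ log₂ N⌉`.  An interval of length `2 ^ (m + 1)` contains a block `2 ^ m y + [0, 2 ^ m)`, and for
the elements `2 ^ m y + c` of the block for which `D` of the first `m` steps of the trajectory are odd steps,
`T^[m] (2 ^ m y + c) = 3 ^ D y + T^[m] c`.  For `k` numbers `D i` near `m / 2` with distances at least `G √ log N` the forms
`3 ^ D i y + r i` are asymptotically independent, for all invariant functions (project KP, the pieces of
`FatesInWindows`), so the probability that all the classes have few elements in `R` is at most `(1 - δ + δ / 2) ^ k + ε`.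
So almost all blocks contain elements of `R`; longer intervals contain many blocks.

Authors: helper26, helper30, helper86, helper18, helper72 (SI); helper26, helper39, helper79, helper45, helper53, helper84, helper98,
helper97, helper17, helper55, helper95, helper8, helper94 (KP).
-/

set_option autoImplicit false

open Filter Topology

namespace Pool.Agent.Results.MP_d02c56_nt.EveryShortInterval

/-- The shortcut Collatz map on the integers. -/
def T (x : ℤ) : ℤ := if x % 2 = 0 then x / 2 else (3 * x + 1) / 2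

/-- The Collatz map of the problem. -/
def C (x : ℤ) : ℤ := if x % 2 = 0 then x / 2 else 3 * x + 1

/-- The integers of which the trajectory under `C` reaches none of the five known cycles, those of `1`, `-1`, `-5`, `-17`
and `0`.  The problem asks whether this set is empty. -/
def Exceptional : Set ℤ := {x | ∀ k j : ℕ, ∀ c ∈ ({1, -1, -5, -17, 0} : Finset ℤ), C^[k] x ≠ C^[j] c}

/-- The integers of which the trajectory under `C` meets that of `a`. -/
def Merging (a : ℤ) : Set ℤ := {x | ∃ i j : ℕ, C^[i] x = C^[j] a}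

/-- An integer `n` of sign `s` is in `R` if and only if `T n` is in `R`. -/
def Invariant (s : ℤ) (R : Set ℤ) : Prop := ∀ n : ℤ, 0 < s * n → (n ∈ R ↔ T n ∈ R)

/-- `δ` is the natural density of `R` among the integers of sign `s`. -/
def HasDensity (s : ℤ) (R : Set ℤ) (δ : ℝ) : Prop :=
  Tendsto (fun N : ℕ => ({n : ℤ | 0 < s * n ∧ s * n ≤ N ∧ n ∈ R}.ncard : ℝ) / N) atTop (𝓝 δ)

/-- The number of the elements of `R` among `n + 1, …, n + H`. -/
noncomputable def count (R : Set ℤ) (H : ℕ) (n : ℤ) : ℕ := {h : ℕ | (1 ≤ h ∧ h ≤ H) ∧ n + h ∈ R}.ncard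

open Pool.Agent.J4H26.PC Pool.Agent.J4H26.KP Pool.Agent.J4H26.KT

theorem inv_iff (s : ℤ) (R : Set ℤ) : Invariant s R ↔ InvS s R := Iff.rfl

theorem dens_iff (s : ℤ) (R : Set ℤ) (δ : ℝ) : HasDensity s R δ ↔ Tendsto (fun N : ℕ => ct s R N / N) atTop (nhds δ) := by
  unfold HasDensity ct
  have e : ∀ N : ℕ, {n : ℤ | 0 < s * n ∧ s * n ≤ N ∧ n ∈ R} = {n : ℤ | 0 < s * n ∧ ((s * n : ℤ) : ℝ) ≤ (N : ℝ) ∧ n ∈ R} := by
    intro N
    ext n
    have : s * n ≤ (N : ℤ) ↔ ((s * n : ℤ) : ℝ) ≤ (N : ℝ) := by exact_mod_cast Iff.rfl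
    simp only [Set.mem_setOf_eq, this]
  simp only [e]

/-- sets invariant under `C` are invariant -/
theorem inv_C {R : Set ℤ} (h : ∀ x, x ∈ R ↔ C x ∈ R) (s : ℤ) : Invariant s R := by
  intro n _
  rcases Int.emod_two_eq_zero_or_one n with hn | hn
  · have e : T n = C n := by unfold T C; rw [if_pos hn, if_pos hn]
    rw [e]
    exact h n
  · have e : T n = C (C n) := by
      have h1 : C n = 3 * n + 1 := by unfold C; rw [if_neg (by omega)]
      have h2 : (3 * n + 1) % 2 = 0 := by omega
      rw [h1]
      unfold C T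
      rw [if_pos h2, if_neg (by omega)]
    rw [e, ← h, ← h]

theorem inv_exceptional (s : ℤ) : Invariant s Exceptional := by
  apply inv_C
  intro x
  constructor
  · intro h k j c hc
    have := h (k + 1) j c hc
    rwa [Function.iterate_succ_apply] at this
  · intro h k j c hc
    have h1 := h k (j + 1) c hc
    intro e
    apply h1
    rw [← Function.iterate_succ_apply, Function.iterate_succ_apply', e, ← Function.iterate_succ_apply' C]

theorem inv_merging (a : ℤ) (s : ℤ) : Invariant s (Merging a) := by
  apply inv_C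
  intro x
  constructor
  · rintro ⟨i, j, h⟩
    refine ⟨i, j + 1, ?_⟩
    rw [← Function.iterate_succ_apply, Function.iterate_succ_apply', h, ← Function.iterate_succ_apply' C]
  · rintro ⟨i, j, h⟩
    exact ⟨i + 1, j, by rw [Function.iterate_succ_apply]; exact h⟩

/-- the integers whose trajectory meets that of `a` have a positive density (starting files) -/
theorem merging_density {s : ℤ} (hs : s = 1 ∨ s = -1) {a : ℤ} (ha : 0 < s * a) :
    ∃ δ : ℝ, 0 < δ ∧ HasDensity s (Merging a) δ := by
  obtain ⟨δ, h, _⟩ := Pool.Agent.H499R2.ND.structure_full hs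
  obtain ⟨h1, h2⟩ := h a ha
  exact ⟨δ a, h1, h2⟩

theorem merging_sub {a : ℤ} (ha : a ∈ Exceptional) : Merging a ⊆ Exceptional := by
  rintro n ⟨i, j, h⟩ k l c hc h2
  apply ha (k + j) (i + l) c hc
  rw [Function.iterate_add_apply, ← h, ← Function.iterate_add_apply, add_comm k i, Function.iterate_add_apply, h2,
    ← Function.iterate_add_apply]

/-- **Integers with a given fate in almost all short intervals.**

* The exceptional set of the problem and, for every `a`, the set of the integers whose trajectory meets that of `a` are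
  invariant, and every invariant set has a natural density among the integers of sign `s`.
* (1) For all `η, δ₀ > 0` there are `B > 0` and `N₀` such that for all `N ≥ N₀`, all `H` with
  `exp (B √ log N) ≤ H ≤ √ N`, `s = ± 1` and all invariant sets `R` of density at least `δ₀`: for all but at most `η N` of
  the integers `n` with `0 < s n ≤ N`, at least `H exp (-B √ log N)` of the integers `n + 1, …, n + H` are in `R`.
* (2) For every integer `a` of sign `s` and all `η > 0` there are `B > 0` and `N₀` such that for all `N ≥ N₀`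
  and all `H` with `exp (B √ log N) ≤ H ≤ √ N`: for all but at most `η N` of the integers `n` with `0 < s n ≤ N`, the
  trajectories of at least `H exp (-B √ log N)` of the integers `n + 1, …, n + H` meet that of `a`.
* (3) If some integer of sign `s` is exceptional, then for all `η > 0` there are `B > 0` and `N₀` such that for
  all `N ≥ N₀` and all `H` with `exp (B √ log N) ≤ H ≤ √ N`: for all but at most `η N` of the integers `n` with
  `0 < s n ≤ N`, at least `H exp (-B √ log N)` of the integers `n + 1, …, n + H` are exceptional. -/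
theorem result :
    (∀ s : ℤ, (s = 1 ∨ s = -1) → Invariant s Exceptional ∧ (∀ a : ℤ, Invariant s (Merging a)) ∧
      ∀ R : Set ℤ, Invariant s R → ∃ δ : ℝ, HasDensity s R δ) ∧
    (∀ η δ₀ : ℝ, 0 < η → 0 < δ₀ → ∃ B : ℝ, 0 < B ∧ ∃ N₀ : ℕ, ∀ N ≥ N₀, ∀ H : ℕ,
      Real.exp (B * √(Real.log N)) ≤ H → (H : ℝ) ≤ √N → ∀ (s : ℤ) (R : Set ℤ) (δ : ℝ), (s = 1 ∨ s = -1) →
      Invariant s R → HasDensity s R δ → δ₀ ≤ δ →
      ({m : ℕ | (1 ≤ m ∧ m ≤ N) ∧ (count R H (s * m) : ℝ) < H * Real.exp (-B * √(Real.log N))}.ncard : ℝ) ≤ η * N) ∧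
    (∀ s a : ℤ, (s = 1 ∨ s = -1) → 0 < s * a → ∀ η : ℝ, 0 < η →
      ∃ B : ℝ, 0 < B ∧ ∃ N₀ : ℕ, ∀ N ≥ N₀, ∀ H : ℕ, Real.exp (B * √(Real.log N)) ≤ H → (H : ℝ) ≤ √N →
      ({m : ℕ | (1 ≤ m ∧ m ≤ N) ∧ (count (Merging a) H (s * m) : ℝ) < H * Real.exp (-B * √(Real.log N))}.ncard : ℝ) ≤ η * N) ∧
    ∀ s : ℤ, (s = 1 ∨ s = -1) → (∃ a : ℤ, 0 < s * a ∧ a ∈ Exceptional) → ∀ η : ℝ, 0 < η →
      ∃ B : ℝ, 0 < B ∧ ∃ N₀ : ℕ, ∀ N ≥ N₀, ∀ H : ℕ, Real.exp (B * √(Real.log N)) ≤ H → (H : ℝ) ≤ √N →
      ({m : ℕ | (1 ≤ m ∧ m ≤ N) ∧ (count Exceptional H (s * m) : ℝ) < H * Real.exp (-B * √(Real.log N))}.ncard : ℝ) ≤ η * N := by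
  have h1 : ∀ η δ₀ : ℝ, 0 < η → 0 < δ₀ → ∃ B : ℝ, 0 < B ∧ ∃ N₀ : ℕ, ∀ N ≥ N₀, ∀ H : ℕ,
      Real.exp (B * √(Real.log N)) ≤ H → (H : ℝ) ≤ √N → ∀ (s : ℤ) (R : Set ℤ) (δ : ℝ), (s = 1 ∨ s = -1) →
      Invariant s R → HasDensity s R δ → δ₀ ≤ δ →
      ({m : ℕ | (1 ≤ m ∧ m ≤ N) ∧ (count R H (s * m) : ℝ) < H * Real.exp (-B * √(Real.log N))}.ncard : ℝ) ≤ η * N := by
    intro η δ₀ hη hδ₀
    obtain ⟨B, hB, hev⟩ := Pool.Agent.J4H26.SI.main_SI2 η δ₀ hη hδ₀
    obtain ⟨N₀, h⟩ := eventually_atTop.1 hev
    exact ⟨B, hB, N₀, fun N hN H hH hH' s R δ hs hR hδ hδ0 => h N hN H hH hH' s hs R hR δ ((dens_iff s R δ).1 hδ) hδ0⟩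
  have hdens : ∀ s : ℤ, (s = 1 ∨ s = -1) → ∀ R : Set ℤ, Invariant s R → ∃ δ : ℝ, HasDensity s R δ := by
    intro s hs R hR
    obtain ⟨δ, h⟩ := Pool.Agent.J4H26.PC.main_dens s hs R hR
    exact ⟨δ, (dens_iff s R δ).2 h⟩
  refine ⟨fun s hs => ⟨inv_exceptional s, fun a => inv_merging a s, hdens s hs⟩, h1, ?_, ?_⟩
  · intro s a hs ha η hη
    obtain ⟨δ, hδ0, hδ⟩ := merging_density hs ha
    obtain ⟨B, hB, N₀, h⟩ := h1 η δ hη hδ0
    exact ⟨B, hB, N₀, fun N hN H hH hH' => h N hN H hH hH' s (Merging a) δ hs (inv_merging a s) hδ le_rfl⟩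
  · rintro s hs ⟨a, ha, hae⟩ η hη
    obtain ⟨δ, hδ0, hδ⟩ := merging_density hs ha
    obtain ⟨δ', hδ'⟩ := hdens s hs Exceptional (inv_exceptional s)
    have hle : δ ≤ δ' := by
      refine le_of_tendsto_of_tendsto' hδ hδ' fun N => ?_
      apply div_le_div_of_nonneg_right _ (Nat.cast_nonneg N)
      have hfin : {n : ℤ | 0 < s * n ∧ s * n ≤ N ∧ n ∈ Exceptional}.Finite := by
        apply (Set.finite_Icc (-(N : ℤ)) N).subset
        rintro n ⟨h1, h2, _⟩
        rcases hs with rfl | rfl
        · exact ⟨by omega, by omega⟩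
        · exact ⟨by omega, by omega⟩
      have hsub : {n : ℤ | 0 < s * n ∧ s * n ≤ N ∧ n ∈ Merging a} ⊆ {n : ℤ | 0 < s * n ∧ s * n ≤ N ∧ n ∈ Exceptional} :=
        fun n hn => ⟨hn.1, hn.2.1, merging_sub hae hn.2.2⟩
      exact_mod_cast Set.ncard_le_ncard hsub hfin
    obtain ⟨B, hB, N₀, h⟩ := h1 η δ hη hδ0
    exact ⟨B, hB, N₀, fun N hN H hH hH' => h N hN H hH hH' s Exceptional δ' hs (inv_exceptional s) hδ' hle⟩

end Pool.Agent.Results.MP_d02c56_nt.EveryShortInterval
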