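import Mathlib
import Pool.Agent.J4H26.KP.Main4
import Pool.Agent.J4H39.KP.T8
import Pool.Agent.J4H26.KP.Law2
import Pool.Agent.H499R2.NDClass2

/-!
# The fates of the integers of a short window under the Collatz map

`T` is the shortcut Collatz map on the integers, `θ₀ = log (4/3) / (2 log 2) = 0.2075…`.  Call a set `R` of integers
invariant (for the sign `s = 1` or `s = -1`) if an integer `n` of sign `s` is in `R` if and only if `T n` is.  The set of
the integers whose trajectory meets that of a given integer `a` is invariant (for `a = 1` these are the integers which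
reach `1`), and so is the exceptional set of the problem: the integers whose trajectory does not reach any of the five
known cycles.  Every invariant set has a natural density among the integers of sign `s`, and the density of the integers
whose trajectory meets that of `a` is positive, for the sign of `a` (starting files).

We determine, for all invariant sets `R 1, …, R k` at once, how they are distributed in short windows.  Let `0 < θ < 1` and
choose a random integer `n`, `0 < s n ≤ N`, and `k` random integers `n + h i` in the window of length `H = ⌊N ^ θ⌋` after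
`n`.  The probability that `n + h i` is in `R i` for all `i` (the mean of the product of the proportions of the sets `R i`
in the window) converges to the expected value of

  the product, over the clusters `B` of `k` random walks, of the density of the intersection of the `R i`, `i ∈ B`,

where the walks have steps `0` and `1`, start at `0`, are independent up to the time `⌊(θ/θ₀) log₂ N⌋` and coalesce
afterwards, up to the time `⌊(1/θ₀) log₂ N⌋`; a cluster is a set of walks which are together at the end, and the law of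
the partition into clusters converges.  So integers of the window whose trajectories do not meet (in the first
`(1 - o(1)) log₂ N / θ₀` steps) have independent fates, for any number of integers, and all the joint moments of the
local densities of invariant sets in windows of length `N ^ θ` are determined.

It follows that the local density of `R` has a limit law, which depends only on `θ` and on the density of `R`; that this
law has full support: if `R 1, …, R r` are disjoint invariant sets of positive density (for example the integers which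
reach `-1`, `-5` and `-17`), then the vector of their proportions is near any given point of the simplex for a positive
proportion of the windows; and that it has no atoms (except in the trivial cases of density `0` and `1`).  For densities
in `[δ₀, 1 - δ₀]` the mass which the limit law gives to `[0, ε]` and to `[1 - ε, 1]` is `exp (-√(log (1/ε)))`, up to a constant
factor in the exponent.  For example, almost all windows contain a positive proportion of integers which reach `1`, and if
there is a counterexample to the assertion of the problem, then almost all windows (among the integers of its sign)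
contain a positive proportion of counterexamples, and nearly all integers of the window are counterexamples for a
proportion `exp (-O (√(log (1/ε))))` of the windows.

The proof.  Words of binary digits and the transfer beyond the digits (files `J4H39`, `J4H26/AF`, `J4H26/KT`) reduce the
window to forms `3 ^ D i * n` with `D i` distributed as the exponents of independent trajectories; the transfer for
invariant functions brings them down to the height `η log₂ N`, where each two of them have merged or are far from each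
other.  For forms far from each other the correlations factor: the exponents develop independently, so that the
correlation is the mean of a product of averages over windows of length `X ^ (1 - η)`, and these averages are near the
densities by the law for the variance (project PC, `MP_071ec9_an/PairCorrelations`).  For (3): the expected number of the
clusters of `k` walks is `o(k)`, while groups of walks far from each other do not meet with positive probability; for
(4): the number of the clusters with at least `w k` walks tends to infinity as `w → 0`, and a sum of many independent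
random variables which are `0` or `a i` with probabilities bounded below is not concentrated (Littlewood and Offord);
for the tails: the mean of the number of the clusters of `K` walks is `O(√(log K))`, and it is unlikely that there are
less than `c √(log K)` clusters, since for `2 m` walks far from each other the events that the walks `2 i - 1`, `2 i` do
not meet are negatively correlated.

Authors: helper26, helper39, helper79, helper45, helper53, helper84, helper98, helper30, helper97, helper17, helper55,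
helper95, helper8, helper94, helper18, helper49, helper19, helper72, helper21, helper54, helper31, helper42, helper5.
-/

set_option autoImplicit false

open Filter Topology

namespace Pool.Agent.Results.MP_d02c56_nt.FatesInWindows

/-- The shortcut Collatz map on the integers. -/
def T (x : ℤ) : ℤ := if x % 2 = 0 then x / 2 else (3 * x + 1) / 2

/-- The Collatz map of the problem. -/
def C (x : ℤ) : ℤ := if x % 2 = 0 then x / 2 else 3 * x + 1

/-- The integers of which the trajectory under `C` reaches none of the five known cycles, those of `1`, `-1`, `-5`, `-17`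
and `0`.  The problem asks whether this set is empty. -/
def Exceptional : Set ℤ := {x | ∀ k j : ℕ, ∀ c ∈ ({1, -1, -5, -17, 0} : Finset ℤ), C^[k] x ≠ C^[j] c}

/-- The integers of which the trajectory under `C` meets that of `a`. -/
def Merging (a : ℤ) : Set ℤ := {x | ∃ i j : ℕ, C^[i] x = C^[j] a}

/-- The constant `log (4/3) / (2 log 2) = 0.2075…`. -/
noncomputable def θ₀ : ℝ := Real.log (4 / 3) / (2 * Real.log 2)

/-- The number of steps `⌊τ log₂ N⌋`. -/
noncomputable def time (τ : ℝ) (N : ℕ) : ℕ := ⌊τ * Real.logb 2 N⌋₊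

/-- An integer `n` of sign `s` is in `R` if and only if `T n` is in `R`. -/
def Invariant (s : ℤ) (R : Set ℤ) : Prop := ∀ n : ℤ, 0 < s * n → (n ∈ R ↔ T n ∈ R)

/-- `δ` is the natural density of `R` among the integers of sign `s`. -/
def HasDensity (s : ℤ) (R : Set ℤ) (δ : ℝ) : Prop :=
  Tendsto (fun N : ℕ => ({n : ℤ | 0 < s * n ∧ s * n ≤ N ∧ n ∈ R}.ncard : ℝ) / N) atTop (𝓝 δ)

/-- The proportion of `R` in `n + 1, …, n + H`. -/
noncomputable def share (R : Set ℤ) (H : ℕ) (n : ℤ) : ℝ := ({h : ℕ | (1 ≤ h ∧ h ≤ H) ∧ n + h ∈ R}.ncard : ℝ) / H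

/-- The mean over the integers `n = s m`, `1 ≤ m ≤ N`, of `F n`. -/
noncomputable def mean (s : ℤ) (N : ℕ) (F : ℤ → ℝ) : ℝ := (∑ m ∈ Finset.Icc 1 N, F (s * m)) / N

/-- At most `exp (-c √(log (1/ε))) N` of the windows `n + 1, …, n + ⌊N ^ θ⌋`, `n = s m`, `1 ≤ m ≤ N`, have a proportion of
elements of `R` which is at most `ε`, and at least `exp (-C √(log (1/ε))) N` of them have a proportion at least `1 - ε`. -/
def Tails (θ c C ε : ℝ) (s : ℤ) (N : ℕ) (R : Set ℤ) : Prop :=
  ({m : ℕ | (1 ≤ m ∧ m ≤ N) ∧ share R ⌊(N : ℝ) ^ θ⌋₊ (s * m) ≤ ε}.ncard : ℝ) ≤ Real.exp (-c * √(Real.log (1 / ε))) * N ∧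
  Real.exp (-C * √(Real.log (1 / ε))) * N ≤ ({m : ℕ | (1 ≤ m ∧ m ≤ N) ∧ 1 - ε ≤ share R ⌊(N : ℝ) ^ θ⌋₊ (s * m)}.ncard : ℝ)

/-- The possible moves of `k` coalescing walks at the positions `z`: all vectors `p` of zeros and ones such that walks at
the same position move together. -/
def moves {k : ℕ} (z : Fin k → ℤ) : Finset (Fin k → Fin 2) := Finset.univ.filter fun p => ∀ i j, z i = z j → p i = p j

/-- The expected value of `F` at the positions after `t` steps of `k` coalescing random walks started at the positions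
`z`.  In a step all the possible moves have the same probability. -/
noncomputable def coalescing {k : ℕ} (F : (Fin k → ℤ) → ℝ) : ℕ → (Fin k → ℤ) → ℝ
  | 0, z => F z
  | t + 1, z => (∑ p ∈ moves z, coalescing F t (fun i => z i + (p i : ℕ))) / (moves z).card

/-- The expected value of `F` at the positions after `t` steps of `k` independent random walks started at the positions
`z`. -/
noncomputable def independent {k : ℕ} (F : (Fin k → ℤ) → ℝ) : ℕ → (Fin k → ℤ) → ℝ
  | 0, z => F z
  | t + 1, z => (∑ p : Fin k → Fin 2, independent F t (fun i => z i + (p i : ℕ))) / 2 ^ k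

/-- The clusters: the sets of the walks which are at the same position. -/
def clusters {k : ℕ} (z : Fin k → ℤ) : Finset (Finset (Fin k)) :=
  Finset.univ.image fun i => Finset.univ.filter fun j => z i = z j

/-- The probability that the clusters of `k` walks started at `0`, which are independent up to the time
`⌊(θ/θ₀) log₂ N⌋` and coalescing afterwards, at the time `⌊(1/θ₀) log₂ N⌋` are the sets of `P`. -/
noncomputable def probability {k : ℕ} (θ : ℝ) (N : ℕ) (P : Finset (Finset (Fin k))) : ℝ :=
  independent (coalescing (fun z => if clusters z = P then 1 else 0) (time (1 / θ₀) N - time (θ / θ₀) N)) (time (θ / θ₀) N)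
    (fun _ => 0)

open Pool.Agent.J4H26.PC Pool.Agent.J4H26.KP Pool.Agent.J4H26.KT

theorem T_eq : T = Pool.Agent.J4H39.T := rfl

theorem th0_eq : θ₀ = Pool.Agent.J4H39.th0 := by
  unfold θ₀ Pool.Agent.J4H39.th0 Pool.Agent.J4H39.mu2
  rw [Real.log_div (by norm_num) (by norm_num)]

theorem inv_iff (s : ℤ) (R : Set ℤ) : Invariant s R ↔ InvS s R := Iff.rfl

theorem dens_iff (s : ℤ) (R : Set ℤ) (δ : ℝ) : HasDensity s R δ ↔ Tendsto (fun N : ℕ => ct s R N / N) atTop (nhds δ) := by
  unfold HasDensity ct
  have e : ∀ N : ℕ, {n : ℤ | 0 < s * n ∧ s * n ≤ N ∧ n ∈ R} = {n : ℤ | 0 < s * n ∧ ((s * n : ℤ) : ℝ) ≤ (N : ℝ) ∧ n ∈ R} := by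
    intro N
    ext n
    have : s * n ≤ (N : ℤ) ↔ ((s * n : ℤ) : ℝ) ≤ (N : ℝ) := by exact_mod_cast Iff.rfl
    simp only [Set.mem_setOf_eq, this]
  simp only [e]

theorem coalescing_eq {k : ℕ} (F : (Fin k → ℤ) → ℝ) (t : ℕ) : ∀ z, coalescing F t z = cw F t z := by
  induction t with
  | zero => intro z; rfl
  | succ t ih =>
    intro z
    show (∑ p ∈ moves z, coalescing F t (fun i => z i + (p i : ℕ))) / (moves z).card =
      (∑ p ∈ Pool.Agent.J4H26.AF.moves z, cw F t (fun i => z i + (p i : ℕ))) / (Pool.Agent.J4H26.AF.moves z).card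
    have e : moves z = Pool.Agent.J4H26.AF.moves z := rfl
    rw [e, Finset.sum_congr rfl (fun p _ => ih _)]

theorem independent_eq {k : ℕ} (F : (Fin k → ℤ) → ℝ) (t : ℕ) : ∀ z, independent F t z = iw F t z := by
  induction t with
  | zero => intro z; rfl
  | succ t ih =>
    intro z
    show (∑ p : Fin k → Fin 2, independent F t (fun i => z i + (p i : ℕ))) / 2 ^ k =
      (∑ p : Fin k → Fin 2, iw F t (fun i => z i + (p i : ℕ))) / 2 ^ k
    rw [Finset.sum_congr rfl (fun p _ => ih _)]

theorem probability_eq {k : ℕ} (θ : ℝ) (N : ℕ) (P : Finset (Finset (Fin k))) : probability θ N P = EW θ N (ip P) := by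
  unfold probability EW
  rw [th0_eq, independent_eq]
  have e : (fun z : Fin k → ℤ => if clusters z = P then (1 : ℝ) else 0) = ip P := by
    funext z
    unfold ip
    rfl
  rw [e]
  have e2 : coalescing (ip P) (time (1 / Pool.Agent.J4H39.th0) N - time (θ / Pool.Agent.J4H39.th0) N) =
      cw (ip P) (time (1 / Pool.Agent.J4H39.th0) N - time (θ / Pool.Agent.J4H39.th0) N) := by
    funext z
    exact coalescing_eq _ _ z
  rw [e2]
  rfl

/-- sets invariant under `C` are invariant -/
theorem inv_C {R : Set ℤ} (h : ∀ x, x ∈ R ↔ C x ∈ R) (s : ℤ) : Invariant s R := by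
  intro n _
  rcases Int.emod_two_eq_zero_or_one n with hn | hn
  · have e : T n = C n := by unfold T C; rw [if_pos hn, if_pos hn]
    rw [e]
    exact h n
  · have e : T n = C (C n) := by
      have h1 : C n = 3 * n + 1 := by unfold C; rw [if_neg (by omega)]
      have h2 : (3 * n + 1) % 2 = 0 := by omega
      rw [h1]
      unfold C T
      rw [if_pos h2, if_neg (by omega)]
    rw [e, ← h, ← h]


theorem inv_exceptional (s : ℤ) : Invariant s Exceptional := by
  apply inv_C
  intro x
  constructor
  · intro h k j c hc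
    have := h (k + 1) j c hc
    rwa [Function.iterate_succ_apply] at this
  · intro h k j c hc
    have h1 := h k (j + 1) c hc
    intro e
    apply h1
    rw [← Function.iterate_succ_apply, Function.iterate_succ_apply', e, ← Function.iterate_succ_apply' C]

theorem inv_merging (a : ℤ) (s : ℤ) : Invariant s (Merging a) := by
  apply inv_C
  intro x
  constructor
  · rintro ⟨i, j, h⟩
    refine ⟨i, j + 1, ?_⟩
    rw [← Function.iterate_succ_apply, Function.iterate_succ_apply', h, ← Function.iterate_succ_apply' C]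
  · rintro ⟨i, j, h⟩
    exact ⟨i + 1, j, by rw [Function.iterate_succ_apply]; exact h⟩

/-- the integers whose trajectory meets that of `a` have a positive density (starting files) -/
theorem merging_density {s : ℤ} (hs : s = 1 ∨ s = -1) {a : ℤ} (ha : 0 < s * a) :
    ∃ δ : ℝ, 0 < δ ∧ HasDensity s (Merging a) δ := by
  obtain ⟨δ, h, _⟩ := Pool.Agent.H499R2.ND.structure_full hs
  obtain ⟨h1, h2⟩ := h a ha
  exact ⟨δ a, h1, h2⟩

theorem merging_sub {a : ℤ} (ha : a ∈ Exceptional) : Merging a ⊆ Exceptional := by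
  rintro n ⟨i, j, h⟩ k l c hc h2
  apply ha (k + j) (i + l) c hc
  rw [Function.iterate_add_apply, ← h, ← Function.iterate_add_apply, add_comm k i, Function.iterate_add_apply, h2,
    ← Function.iterate_add_apply]

theorem share_mono {R R' : Set ℤ} (h : R ⊆ R') (H : ℕ) (n : ℤ) : share R H n ≤ share R' H n := by
  unfold share
  apply div_le_div_of_nonneg_right _ (Nat.cast_nonneg H)
  have hfin : {h : ℕ | (1 ≤ h ∧ h ≤ H) ∧ n + h ∈ R'}.Finite := by
    apply (Set.finite_Icc 1 H).subset
    intro m hm
    exact hm.1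
  have hsub : {h : ℕ | (1 ≤ h ∧ h ≤ H) ∧ n + h ∈ R} ⊆ {h : ℕ | (1 ≤ h ∧ h ≤ H) ∧ n + h ∈ R'} :=
    fun m hm => ⟨hm.1, h hm.2⟩
  exact_mod_cast Set.ncard_le_ncard hsub hfin

/-- **The fates of the integers of a short window under the Collatz map.**  Let `0 < θ < 1`.

* (0) The exceptional set of the problem and, for every `a`, the set of the integers whose trajectory meets that of `a` are
  invariant, the density of the latter is positive for the sign `s` of `a`, and every invariant set has a natural density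
  among the integers of sign `s`.
* (1) For every `k ≥ 1` the probability of the set `P` of clusters for the `k` walks tends to a limit `p P` as `N → ∞`,
  and for all `s = ±1` and `ε > 0` there is `N₀` such that for all `N ≥ N₀` and all invariant sets `R 1, …, R k`, with the
  density `δ B` of the intersection of the `R i`, `i ∈ B`, for every `B`, the mean over `0 < s n ≤ N` of the product of the
  proportions of the sets `R i` in `n + 1, …, n + ⌊N ^ θ⌋` is within `ε` of the sum over `P` of `p P` times the product of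
  `δ B` over the clusters `B` of `P`.
* (2) For every continuous function `φ` there is a function `L` such that for every `ε > 0` there is `N₀` such that for all
  `N ≥ N₀` and all invariant sets `R`, of density `δ`, the mean of `φ` of the proportion of `R` in
  `n + 1, …, n + ⌊N ^ θ⌋` is within `ε` of `L δ`.
* (3) For every point `x` of the simplex `x 1 + ⋯ + x r = 1`, `x i ≥ 0`, and all `ε > 0`, `δ₀ > 0` there are `c > 0` and `N₀`
  such that for all `N ≥ N₀` and all disjoint invariant sets `R 1, …, R r` of density at least `δ₀` the proportion of `R i`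
  in `n + 1, …, n + ⌊N ^ θ⌋` is within `ε` of `x i`, for all `i`, for at least `c N` of the integers `n`, `0 < s n ≤ N`.
* (4) For every `δ₀ > 0` there are `c, C, ε₀ > 0` such that for all `0 < ε ≤ ε₀` and all `N ≥ N₀ (ε)`, for every invariant set
  `R` of density `δ ≥ δ₀`: the proportion of `R` in `n + 1, …, n + ⌊N ^ θ⌋` is at most `ε` for at most
  `exp (-c √(log (1/ε))) N` of the integers `n`, `0 < s n ≤ N`, and at least `1 - ε` for at least `exp (-C √(log (1/ε))) N`
  of them; if `δ ≤ 1 - δ₀`, then the same holds for the complement of `R`.  For all `η > 0` and `δ₀ > 0` there are `ε > 0` and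
  `N₀` such that for all `N ≥ N₀` and every invariant set `R` of density `δ₀ ≤ δ ≤ 1 - δ₀` and every `x` the proportion of `R`
  in `n + 1, …, n + ⌊N ^ θ⌋` is within `ε` of `x` for at most `η N` of the integers `n`, `0 < s n ≤ N`.
* (5) For every integer `a` of sign `s` the first two bounds of (4) hold (with `c, C, ε₀` depending on `a`) for the set of the
  integers whose trajectory meets that of `a`; and if `a` is exceptional, then also for the exceptional integers. -/
theorem result (θ : ℝ) (hθ : 0 < θ) (hθ1 : θ < 1) :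
    (∀ s : ℤ, (s = 1 ∨ s = -1) → Invariant s Exceptional ∧
      (∀ a : ℤ, Invariant s (Merging a) ∧ (0 < s * a → ∃ δ : ℝ, 0 < δ ∧ HasDensity s (Merging a) δ)) ∧
      ∀ R : Set ℤ, Invariant s R → ∃ δ : ℝ, HasDensity s R δ) ∧
    (∀ k : ℕ, ∃ p : Finset (Finset (Fin (k + 1))) → ℝ, (∀ P, Tendsto (fun N : ℕ => probability θ N P) atTop (𝓝 (p P))) ∧
      ∀ s : ℤ, (s = 1 ∨ s = -1) → ∀ ε : ℝ, 0 < ε → ∃ N₀ : ℕ, ∀ N ≥ N₀, ∀ (R : Fin (k + 1) → Set ℤ)
      (δ : Finset (Fin (k + 1)) → ℝ), (∀ i, Invariant s (R i)) → (∀ B, HasDensity s {n | ∀ i ∈ B, n ∈ R i} (δ B)) →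
      |mean s N (fun n => ∏ i, share (R i) ⌊(N : ℝ) ^ θ⌋₊ n) - ∑ P, p P * ∏ B ∈ P, δ B| ≤ ε) ∧
    (∀ φ : ℝ → ℝ, Continuous φ → ∃ L : ℝ → ℝ, ∀ ε : ℝ, 0 < ε → ∃ N₀ : ℕ, ∀ N ≥ N₀, ∀ (s : ℤ) (R : Set ℤ) (δ : ℝ),
      (s = 1 ∨ s = -1) → Invariant s R → HasDensity s R δ →
      |mean s N (fun n => φ (share R ⌊(N : ℝ) ^ θ⌋₊ n)) - L δ| ≤ ε) ∧
    (∀ (r : ℕ) (x : Fin r → ℝ) (ε δ₀ : ℝ), (∀ i, 0 ≤ x i) → ∑ i, x i = 1 → 0 < ε → 0 < δ₀ → ∃ c : ℝ, 0 < c ∧ ∃ N₀ : ℕ,
      ∀ N ≥ N₀, ∀ (s : ℤ) (R : Fin r → Set ℤ) (δ : Fin r → ℝ), (s = 1 ∨ s = -1) → (∀ i, Invariant s (R i)) →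
      (∀ i j, i ≠ j → Disjoint (R i) (R j)) → (∀ i, HasDensity s (R i) (δ i) ∧ δ₀ ≤ δ i) →
      c * N ≤ {m : ℕ | (1 ≤ m ∧ m ≤ N) ∧ ∀ i, |share (R i) ⌊(N : ℝ) ^ θ⌋₊ (s * m) - x i| ≤ ε}.ncard) ∧
    (∀ δ₀ : ℝ, 0 < δ₀ → ∃ c C ε₀ : ℝ, 0 < c ∧ 0 < C ∧ 0 < ε₀ ∧ ∀ ε : ℝ, 0 < ε → ε ≤ ε₀ → ∃ N₀ : ℕ, ∀ N ≥ N₀,
      ∀ (s : ℤ) (R : Set ℤ) (δ : ℝ), (s = 1 ∨ s = -1) → Invariant s R → HasDensity s R δ →
      (δ₀ ≤ δ → Tails θ c C ε s N R) ∧ (δ ≤ 1 - δ₀ → Tails θ c C ε s N {n | n ∉ R})) ∧
    (∀ η δ₀ : ℝ, 0 < η → 0 < δ₀ → ∃ ε : ℝ, 0 < ε ∧ ∃ N₀ : ℕ, ∀ N ≥ N₀, ∀ (s : ℤ) (R : Set ℤ) (δ : ℝ), (s = 1 ∨ s = -1) →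
      Invariant s R → HasDensity s R δ → δ₀ ≤ δ → δ ≤ 1 - δ₀ → ∀ x : ℝ,
        ({m : ℕ | (1 ≤ m ∧ m ≤ N) ∧ |share R ⌊(N : ℝ) ^ θ⌋₊ (s * m) - x| ≤ ε}.ncard : ℝ) ≤ η * N) ∧
    ∀ s a : ℤ, (s = 1 ∨ s = -1) → 0 < s * a → ∃ c C ε₀ : ℝ, 0 < c ∧ 0 < C ∧ 0 < ε₀ ∧ ∀ ε : ℝ, 0 < ε → ε ≤ ε₀ →
      ∃ N₀ : ℕ, ∀ N ≥ N₀, Tails θ c C ε s N (Merging a) ∧ (a ∈ Exceptional → Tails θ c C ε s N Exceptional) := by
  have h4 : ∀ δ₀ : ℝ, 0 < δ₀ → ∃ c C ε₀ : ℝ, 0 < c ∧ 0 < C ∧ 0 < ε₀ ∧ ∀ ε : ℝ, 0 < ε → ε ≤ ε₀ → ∃ N₀ : ℕ, ∀ N ≥ N₀,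
      ∀ (s : ℤ) (R : Set ℤ) (δ : ℝ), (s = 1 ∨ s = -1) → Invariant s R → HasDensity s R δ →
      (δ₀ ≤ δ → Tails θ c C ε s N R) ∧ (δ ≤ 1 - δ₀ → Tails θ c C ε s N {n | n ∉ R}) := by
    intro δ₀ hδ₀
    obtain ⟨c, C, ε₀, hc, hC, hε₀, h⟩ := Pool.Agent.J4H39.KP.main_TL hθ hθ1 hδ₀
    refine ⟨c, C, ε₀, hc, hC, hε₀, fun ε hε hεε => ?_⟩
    obtain ⟨N₀, h1⟩ := eventually_atTop.1 (h ε hε hεε)
    refine ⟨N₀, fun N hN s R δ hs hR hδ => ⟨fun hd => ?_, fun hd => ?_⟩⟩
    · obtain ⟨g1, g2⟩ := (h1 N hN s hs R hR δ ((dens_iff s R δ).1 hδ)).1 hd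
      exact ⟨g2, g1⟩
    · have hRc : Invariant s {n | n ∉ R} := fun n hn => not_congr (hR n hn)
      have hδc := dens_compl hs ((dens_iff s R δ).1 hδ)
      obtain ⟨g1, g2⟩ := (h1 N hN s hs {n | n ∉ R} hRc (1 - δ) hδc).1 (by linarith)
      exact ⟨g2, g1⟩
  refine ⟨fun s hs => ⟨inv_exceptional s, fun a => ⟨inv_merging a s, fun ha => merging_density hs ha⟩, fun R hR => ?_⟩,
    ?_, ?_, ?_, h4, ?_, ?_⟩
  · obtain ⟨δ, h⟩ := Pool.Agent.J4H26.PC.main_dens s hs R hR
    exact ⟨δ, (dens_iff s R δ).2 h⟩
  · intro k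
    obtain ⟨p, h1, h2⟩ := main_lim k hθ hθ1
    refine ⟨p, fun P => ?_, fun s hs ε hε => ?_⟩
    · simp only [probability_eq]
      exact h1 P
    · obtain ⟨N₀, h⟩ := eventually_atTop.1 (h2 s hs ε hε)
      exact ⟨N₀, fun N hN R δ hR hδ => h N hN R δ hR (fun B _ => (dens_iff s _ _).1 (hδ B))⟩
  · intro φ hφ
    obtain ⟨L, hL⟩ := main_law_unif hθ hθ1 hφ
    refine ⟨L, fun ε hε => ?_⟩
    obtain ⟨N₀, h⟩ := eventually_atTop.1 (hL ε hε)
    exact ⟨N₀, fun N hN s R δ hs hR hδ => h N hN s R δ hs hR ((dens_iff s R δ).1 hδ)⟩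
  · intro r x ε δ₀ hx hxs hε hδ₀
    obtain ⟨c, hc, hev⟩ := main_SUPG hθ hθ1 hε hδ₀ hx hxs
    obtain ⟨N₀, h⟩ := eventually_atTop.1 hev
    exact ⟨c, hc, N₀, fun N hN s R δ hs hR hdis hδ =>
      h N hN s hs R hR hdis δ (fun l => (dens_iff s _ _).1 (hδ l).1) (fun l => (hδ l).2)⟩
  · intro η δ₀ hη hδ₀
    obtain ⟨ε, hε, hev⟩ := main_NOAT hθ hθ1 hη hδ₀
    obtain ⟨N₀, h⟩ := eventually_atTop.1 hev
    exact ⟨ε, hε, N₀, fun N hN s R δ hs hR hδ hδ0 hδ1 x => h N hN s hs R hR δ ((dens_iff s R δ).1 hδ) hδ0 hδ1 x⟩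
  · intro s a hs ha
    obtain ⟨δ, hδ0, hδ⟩ := merging_density hs ha
    obtain ⟨c, C, ε₀, hc, hC, hε₀, h⟩ := h4 δ hδ0
    refine ⟨c, C, ε₀, hc, hC, hε₀, fun ε hε hεε => ?_⟩
    obtain ⟨N₀, h1⟩ := h ε hε hεε
    refine ⟨N₀, fun N hN => ?_⟩
    obtain ⟨g1, g2⟩ := (h1 N hN s (Merging a) δ hs (inv_merging a s) hδ).1 le_rfl
    refine ⟨⟨g1, g2⟩, fun hae => ⟨le_trans ?_ g1, le_trans g2 ?_⟩⟩
    · have hfin : {m : ℕ | (1 ≤ m ∧ m ≤ N) ∧ share (Merging a) ⌊(N : ℝ) ^ θ⌋₊ (s * m) ≤ ε}.Finite :=
        (Set.finite_Icc 1 N).subset fun m hm => hm.1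
      have hsub : {m : ℕ | (1 ≤ m ∧ m ≤ N) ∧ share Exceptional ⌊(N : ℝ) ^ θ⌋₊ (s * m) ≤ ε} ⊆
          {m : ℕ | (1 ≤ m ∧ m ≤ N) ∧ share (Merging a) ⌊(N : ℝ) ^ θ⌋₊ (s * m) ≤ ε} :=
        fun m hm => ⟨hm.1, le_trans (share_mono (merging_sub hae) _ _) hm.2⟩
      exact_mod_cast Set.ncard_le_ncard hsub hfin
    · have hfin : {m : ℕ | (1 ≤ m ∧ m ≤ N) ∧ 1 - ε ≤ share Exceptional ⌊(N : ℝ) ^ θ⌋₊ (s * m)}.Finite :=
        (Set.finite_Icc 1 N).subset fun m hm => hm.1
      have hsub : {m : ℕ | (1 ≤ m ∧ m ≤ N) ∧ 1 - ε ≤ share (Merging a) ⌊(N : ℝ) ^ θ⌋₊ (s * m)} ⊆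
          {m : ℕ | (1 ≤ m ∧ m ≤ N) ∧ 1 - ε ≤ share Exceptional ⌊(N : ℝ) ^ θ⌋₊ (s * m)} :=
        fun m hm => ⟨hm.1, le_trans hm.2 (share_mono (merging_sub hae) _ _)⟩
      exact_mod_cast Set.ncard_le_ncard hsub hfin

end Pool.Agent.Results.MP_d02c56_nt.FatesInWindows
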