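import Pool.Agent.J4H80.QU.M2
import Pool.Agent.J4H80.QU.M5

set_option autoImplicit false

/-!
# Linear patterns in the sets invariant under the Collatz map

Let `F` be a bounded function on the integers that is constant along the trajectories of the Collatz
map, for example the indicator function of a union of basins of cycles, or of the set of the integers
whose trajectories do not reach a known cycle. Then `F` is uniform of every order (all Gowers norms of
`F` minus its mean are small at every large scale, uniformly in `F`: `unifF` in `J4H80/QU/L3.lean`), so the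
values of such functions at pairwise non-proportional affine forms are asymptotically independent: of each
other, and of all bounded weights that are invariant in a direction in which none of the forms is constant
(for example arbitrary functions of another form, or products of functions of all but one of the variables).

In particular the fates of the members of an arithmetic progression of any length are asymptotically
independent. On the negative integers the basins of the three known cycles have positive density, and
the theorem gives the numbers of the progressions with any given sequence of these fates.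

Method. (1) `F` has the same value at `n` and at `2 ^ x 3 ^ y n + b` for almost all `n`
(coalescence, from the starting results). (2) If the Gowers norm of order `k + 2` of `f = F - μ` is
large, then for many `h ∈ ℤ ^ k` the derivative of `f` in the directions `h` has a large Fourier
coefficient `ξ h`. The set of these `h` is nearly invariant under the dilations by `2` and
`3` and their inverses (with bounded errors), and `ξ` is nearly Freiman-linear in each direction on a
large piece of it (Balog-Szemerédi-Gowers), with boundedly many values at the images of a given `h`.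
(3) Going around a closed path of dilations `h i ↦ ⌊a h i / b⌋` (one coordinate at a time) in a set of pairs
of large frequencies returns `h` dilated by a factor different from the one of the frequency; from
this `ξ h` is split in a sum of functions each of which does not depend on one of the coordinates of `h`,
on a large set. (4) By the box form of the Cauchy-Schwarz inequality a large correlation with such a
sum means that a Gowers norm of smaller order is large, and one arrives at the order two, that is at the
Fourier coefficients of `f`, which are small (starting results). (5) The generalised von Neumann theorem.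

Parts of the proof are due to other agents: `J4H8/QU/Box.lean` (box norms, split phases), `J4H79/QU/*`
(paths in dense sets of a grid, floor maps, refinement), `J4H26/VN/*` (generalised von Neumann theorem).
-/

namespace Pool.Agent.Results.MP_d02c56_nt.LinearPatterns

open Filter Topology

/-- The Collatz map on the integers. -/
def C (x : ℤ) : ℤ := if x % 2 = 0 then x / 2 else 3 * x + 1

/-- A function with values in `[-1, 1]` that is constant along the trajectories of the Collatz map. -/
def InvariantFunction (F : ℤ → ℝ) : Prop := (∀ x, |F x| ≤ 1) ∧ ∀ x, F (C x) = F x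

/-- The mean value of `F` over the integers of sign `s` is `μ`. -/
def HasMean (s : ℤ) (F : ℤ → ℝ) (μ : ℝ) : Prop :=
  Tendsto (fun N : ℕ => (∑ n ∈ Finset.Icc 1 N, F (s * n)) / N) atTop (𝓝 μ)

/-- The linear forms with the coefficient vectors `L i` are nonzero and pairwise not proportional. -/
def Nonproportional {d t : ℕ} (L : Fin t → Fin d → ℤ) : Prop :=
  (∀ i, ∃ l, L i l ≠ 0) ∧ ∀ i j, i ≠ j → ∀ u v : ℤ, (∀ l, u * L i l = v * L j l) → u = 0 ∧ v = 0

/-- The value at `x` of the `i`-th affine form. -/
def value {d t : ℕ} (L : Fin t → Fin d → ℤ) (c : Fin t → ℤ) (x : Fin d → ℤ) (i : Fin t) : ℤ :=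
  ∑ l, L i l * x l + c i

/-- The integral points `x` of the box `a ≤ x ≤ b` at which, for every `i`, the value of the `i`-th form
times `s i` is in `(M i, M' i]`. -/
noncomputable def Points {d t : ℕ} (s : Fin t → ℤ) (L : Fin t → Fin d → ℤ) (c : Fin t → ℤ) (a b : Fin d → ℤ)
    (M M' : Fin t → ℕ) : Finset (Fin d → ℤ) :=
  (Finset.Icc a b).filter fun x => ∀ i, (M i : ℤ) < s i * value L c x i ∧ s i * value L c x i ≤ M' i

/-- The union of the five known cycles. -/
def Known : Finset ℤ := {1, 4, 2, -1, -2, -5, -14, -7, -20, -10, -17, -50, -25, -74, -37, -110,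
  -55, -164, -82, -41, -122, -61, -182, -91, -272, -136, -68, -34, 0}

/-- The trajectory of `x` reaches one of the five known cycles. -/
def Reaches (x : ℤ) : Prop := ∃ k : ℕ, C^[k] x ∈ Known

/-- The number of the progressions `x, x + h, ..., x + (k - 1) h` in `[1, N]` with `x, h ≥ 1` such that
`s (x + i h)` does not reach a known cycle exactly for the `i` in `A`. -/
noncomputable def Words (s : ℤ) (N : ℕ) {k : ℕ} (A : Finset (Fin k)) : ℕ :=
  {p : ℕ × ℕ | 1 ≤ p.1 ∧ 1 ≤ p.2 ∧ p.1 + (k - 1) * p.2 ≤ N ∧
    ∀ i : Fin k, (¬ Reaches (s * (p.1 + i * p.2))) ↔ i ∈ A}.ncard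

theorem known_closed : ∀ x ∈ Known, C x ∈ Known := by decide

theorem reaches_step (x : ℤ) : Reaches x ↔ Reaches (C x) := by
  constructor
  · rintro ⟨k, hk⟩
    cases k with
    | zero => exact ⟨0, known_closed x hk⟩
    | succ k => exact ⟨k, by rw [Function.iterate_succ_apply] at hk; exact hk⟩
  · rintro ⟨k, hk⟩
    exact ⟨k + 1, by rw [Function.iterate_succ_apply]; exact hk⟩

open Pool.Agent.J4H80.QU in
theorem fails_inv : InvS {x | ¬ Reaches x} := fun x => not_congr (reaches_step x)

open Pool.Agent.J4H80.QU in
theorem reaches_inv : InvS {x | Reaches x} := fun x => reaches_step x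

open Pool.Agent.J4H80.QU in
theorem points (d t r K : ℕ) (s : Fin t → ℤ) (hs : ∀ i, s i = 1 ∨ s i = -1) (ε : ℝ) (hε : 0 < ε) :
    ∃ N₀ : ℕ, ∀ N : ℕ, N₀ ≤ N →
    ∀ (F : Fin t → ℤ → ℝ) (μ : Fin t → ℝ), (∀ i, InvariantFunction (F i)) → (∀ i, HasMean (s i) (F i) (μ i)) →
    ∀ (L : Fin t → Fin d → ℤ) (c : Fin t → ℤ), (∀ i l, |L i l| ≤ K) → (∀ i, |c i| ≤ K * N) → Nonproportional L →
    ∀ (w : Fin r → Fin d → ℤ) (g : Fin r → (Fin d → ℤ) → ℂ), (∀ k l, |w k l| ≤ K) →
    (∀ i k, ∑ l, L i l * w k l ≠ 0) → (∀ k x, ‖g k x‖ ≤ 1) → (∀ k x, g k (x + w k) = g k x) →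
    ∀ a b : Fin d → ℤ, (∀ l, -(N : ℤ) ≤ a l ∧ b l ≤ N) → ∀ M M' : Fin t → ℕ,
    ‖∑ x ∈ Points s L c a b M M', (∏ i, (F i (value L c x i) : ℂ)) * ∏ k, g k x -
      (∏ i, (μ i : ℂ)) * ∑ x ∈ Points s L c a b M M', ∏ k, g k x‖ ≤ ε * N ^ d := by
  classical
  obtain ⟨N₀, H⟩ := law d t r K s hs hε
  refine ⟨N₀, fun N hN F μ hF hμ L c hL hc hLn w g hw hLw hg hgw a b hab M M' => ?_⟩
  have h1 := H F hF μ hμ N hN L hL hLn w hw hLw c hc a b hab g hg hgw M M'
  have key : ∀ Φ : Fin t → ℤ → ℝ, ∑ x ∈ Finset.Icc a b,
      (∏ i, (fcut (s i) (Φ i) (M i) (M' i) (∑ l, L i l * x l + c i) : ℂ)) * ∏ k, g k x =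
      ∑ x ∈ Points s L c a b M M', (∏ i, (Φ i (value L c x i) : ℂ)) * ∏ k, g k x := by
    intro Φ
    unfold Points
    rw [Finset.sum_filter]
    refine Finset.sum_congr rfl fun x _ => ?_
    split_ifs with h
    · congr 1
      refine Finset.prod_congr rfl fun i _ => ?_
      unfold fcut
      exact congrArg Complex.ofReal (if_pos (h i))
    · push Not at h
      obtain ⟨i, hi⟩ := h
      rw [Finset.prod_eq_zero (Finset.mem_univ i), zero_mul]
      unfold fcut
      rw [if_neg, Complex.ofReal_zero]
      intro h2
      have h3 := hi h2.1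
      have h4 := h2.2
      unfold value at h3
      omega
  rw [key F, key fun _ _ => 1] at h1
  simp only [Complex.ofReal_one, Finset.prod_const_one, one_mul] at h1
  exact h1

open Pool.Agent.J4H80.QU in
theorem fates {s : ℤ} (hs : s = 1 ∨ s = -1) : ∃ δ : ℝ, HasMean s ({x | ¬ Reaches x}.indicator fun _ => 1) δ ∧
    0 ≤ δ ∧ δ < 1 ∧ (δ = 0 ↔ ∀ x : ℤ, 0 < s * x → Reaches x) ∧
    ∀ k : ℕ, 2 ≤ k → ∀ A : Finset (Fin k), Tendsto (fun N : ℕ => (Words s N A : ℝ) / N ^ 2) atTop
      (𝓝 (δ ^ A.card * (1 - δ) ^ (k - A.card) / (2 * (k - 1)))) := by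
  classical
  have hone : ∃ x ∈ {x | Reaches x}, 0 < s * x := by
    rcases hs with rfl | rfl
    · exact ⟨1, ⟨0, by decide⟩, by norm_num⟩
    · exact ⟨-1, ⟨0, by decide⟩, by norm_num⟩
  obtain ⟨δ', hδ'0, hδ'⟩ := mean_pos hs reaches_inv hone
  have hcompl : MeanF s (({x | ¬ Reaches x}).indicator fun _ => (1 : ℝ)) (1 - δ') := mean_compl hδ'
  have hle : 0 ≤ 1 - δ' := by
    refine ge_of_tendsto' hcompl fun N => ?_
    exact div_nonneg (Finset.sum_nonneg fun n _ => Set.indicator_nonneg (fun _ _ => zero_le_one) _) (Nat.cast_nonneg _)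
  refine ⟨1 - δ', hcompl, hle, by linarith, ⟨fun h0 x hx => ?_, fun h => ?_⟩, fun k hk A => ?_⟩
  · by_contra hcon
    obtain ⟨δ'', h1, h2⟩ := mean_pos hs fails_inv ⟨x, hcon, hx⟩
    have h3 := mean_unique h2 hcompl
    linarith
  · have h1 : MeanF s (({x | ¬ Reaches x}).indicator fun _ => (1 : ℝ)) 0 :=
      mean_zero (fun x hx h2 => hx (h x h2)) hs
    exact mean_unique hcompl h1
  · exact words hs fails_inv hcompl hk A

/-- (1) Every invariant function has a mean value over the positive and over the negative integers.
(2) The values of invariant functions `F i` at pairwise non-proportional affine forms in `d` variables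
are asymptotically independent, of each other and of all weights `g k` with values in the unit disc that
are invariant under a translation `w k` in the direction of which none of the forms is constant: the sum
over the integral points of a polytope in `[-N, N] ^ d` (given by a box and an interval for each form) is
the product of the mean values times the sum of the weights, up to `ε N ^ d`, for `N ≥ N₀` where `N₀`
depends only on `ε`, the numbers `d`, `t`, `r` of the variables, forms and weights, the signs, and a bound `K` for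
the coefficients (and for the constants divided by `N`).
(3) Let `δ` be the density of the integers of sign `s` whose trajectories do not reach a known cycle. Then
`δ < 1`, and `δ = 0` only if there are no such integers. For each `k ≥ 2` and each set `A` of positions the
number of the progressions of length `k` in `[1, N]` (or `[-N, -1]`) whose members at the positions in `A`, and only
these, do not reach a known cycle is `δ ^ |A| (1 - δ) ^ (k - |A|) N ^ 2 / (2 (k - 1))` up to `o(N ^ 2)`. -/
theorem result :
    (∀ s : ℤ, (s = 1 ∨ s = -1) → ∀ F : ℤ → ℝ, InvariantFunction F → ∃ μ : ℝ, HasMean s F μ) ∧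
    (∀ (d t r K : ℕ) (s : Fin t → ℤ), (∀ i, s i = 1 ∨ s i = -1) → ∀ ε : ℝ, 0 < ε →
      ∃ N₀ : ℕ, ∀ N : ℕ, N₀ ≤ N →
      ∀ (F : Fin t → ℤ → ℝ) (μ : Fin t → ℝ), (∀ i, InvariantFunction (F i)) → (∀ i, HasMean (s i) (F i) (μ i)) →
      ∀ (L : Fin t → Fin d → ℤ) (c : Fin t → ℤ), (∀ i l, |L i l| ≤ K) → (∀ i, |c i| ≤ K * N) → Nonproportional L →
      ∀ (w : Fin r → Fin d → ℤ) (g : Fin r → (Fin d → ℤ) → ℂ), (∀ k l, |w k l| ≤ K) →
      (∀ i k, ∑ l, L i l * w k l ≠ 0) → (∀ k x, ‖g k x‖ ≤ 1) → (∀ k x, g k (x + w k) = g k x) →
      ∀ a b : Fin d → ℤ, (∀ l, -(N : ℤ) ≤ a l ∧ b l ≤ N) → ∀ M M' : Fin t → ℕ,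
      ‖∑ x ∈ Points s L c a b M M', (∏ i, (F i (value L c x i) : ℂ)) * ∏ k, g k x -
        (∏ i, (μ i : ℂ)) * ∑ x ∈ Points s L c a b M M', ∏ k, g k x‖ ≤ ε * N ^ d) ∧
    (∀ s : ℤ, (s = 1 ∨ s = -1) → ∃ δ : ℝ, HasMean s ({x | ¬ Reaches x}.indicator fun _ => 1) δ ∧
      0 ≤ δ ∧ δ < 1 ∧ (δ = 0 ↔ ∀ x : ℤ, 0 < s * x → Reaches x) ∧
      ∀ k : ℕ, 2 ≤ k → ∀ A : Finset (Fin k), Tendsto (fun N : ℕ => (Words s N A : ℝ) / N ^ 2) atTop
        (𝓝 (δ ^ A.card * (1 - δ) ^ (k - A.card) / (2 * (k - 1))))) :=
  ⟨fun _ hs _ hF => Pool.Agent.J4H80.QU.mean_ex hs hF, points, fun _ hs => fates hs⟩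

end Pool.Agent.Results.MP_d02c56_nt.LinearPatterns
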